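import Mathlib
import Pool.Agent.Lib.MP_04dca5_al.Cut.MainB
import Pool.Agent.Lib.MP_04dca5_al.Cut.MainC

/-!
# MP_04dca5_al: two classes of finitary permutation groups which are not barely transitive

`G` is a transitive group of finitary permutations, all of `p`-power order, of an infinite set `Ω`
(finitary barely transitive groups are `p`-groups, one of the facts listed in the problem).
We show that `G` has a proper subgroup with an infinite orbit (the negated form of Q1) in each of two
cases.

* `BoundedCut`: for a fixed `e`, the `p ^ e`-th powers of the elements of `G` which fix all classes of a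
  congruence `r` with finite classes can be cut off outside the classes of a larger congruence `s` with
  finite classes, without leaving `G`.  For instance this holds if, for arbitrarily large finite blocks
  `C`, the stabiliser of `C` modulo the product of the pointwise stabiliser of `C` and of the subgroup
  of all elements supported in `C` has exponent dividing `p ^ e`.  Nothing is supposed on the cycles of
  the elements.
* `CentRet`: elements `g` moving large blocks are centralised, in the sense made precise below, by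
  elements of `G` with support in a fixed class and with large displacement.
-/

set_option autoImplicit false

namespace Pool.Agent.Results.MP_04dca5_al.ReturnCentralisers

open Equiv

/-- `r` is a `G`-invariant equivalence relation on `Ω` with finite classes. -/
def FinCong {Ω : Type} (G : Subgroup (Perm Ω)) (r : Setoid Ω) : Prop :=
  (∀ g ∈ G, ∀ x y, r x y → r (g x) (g y)) ∧ ∀ x, {y | r x y}.Finite

/-- The point `a` lies in a cycle of `g` whose length is the order of `g`. -/
def LongPoint {Ω : Type} (g : Perm Ω) (a : Ω) : Prop :=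
  ∀ n : ℕ, (g ^ n) a = a → g ^ n = 1

/-- There is `e` such that every `r` lies in some `s` such that for all `g` in `G` fixing all
`r`-classes and all points `a` in longest cycles of `g` the permutation which is equal to `g ^ p ^ e` on
the `s`-class of `a` and trivial outside this class belongs to `G`. -/
def BoundedCut {Ω : Type} (p : ℕ) (G : Subgroup (Perm Ω)) : Prop :=
  ∃ e : ℕ, ∀ r : Setoid Ω, FinCong G r → ∃ s : Setoid Ω, FinCong G s ∧ r ≤ s ∧
    ∀ g ∈ G, (∀ x, r x (g x)) → ∀ a, LongPoint g a →
      ∃ c ∈ G, (∀ x, s a x → c x = (g ^ p ^ e) x) ∧ ∀ x, ¬ s a x → c x = x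

/-- There is a set `M` of pairs `(g, a)` with `g` moving arbitrarily large blocks around `a`, such that
every `r` lies in some `s` such that for a suitable `u` and all pairs `(g, a)` in `M` with `g` moving the
`u`-class of `a` there is `c` in `G`, trivial outside the `s`-class `S` of `a`, which moves the `r`-class of
`a` and commutes on `S` with all powers of `g` which preserve `S`. -/
def CentRet {Ω : Type} (G : Subgroup (Perm Ω)) : Prop :=
  ∃ M : Set (Perm Ω × Ω),
    (∀ u : Setoid Ω, FinCong G u → ∃ q ∈ M, q.1 ∈ G ∧ ¬ u q.2 (q.1 q.2)) ∧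
    ∀ r : Setoid Ω, FinCong G r → ∃ s u : Setoid Ω, FinCong G s ∧ FinCong G u ∧ r ≤ s ∧
      ∀ q ∈ M, q.1 ∈ G → ¬ u q.2 (q.1 q.2) →
        ∃ c ∈ G, (∀ x, ¬ s q.2 x → c x = x) ∧ ¬ r q.2 (c q.2) ∧
          ∀ n : ℤ, s q.2 ((q.1 ^ n) q.2) → ∀ x, s q.2 x → c ((q.1 ^ n) x) = (q.1 ^ n) (c x)

/-- A transitive finitary `p`-group on an infinite set with `BoundedCut` or `CentRet` has a proper
subgroup with an infinite orbit. -/
theorem result {Ω : Type} [Infinite Ω] (p : ℕ) (hp : p.Prime) (G : Subgroup (Perm Ω))
    (hfin : ∀ g ∈ G, {x : Ω | g x ≠ x}.Finite)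
    (htr : ∀ x y : Ω, ∃ g ∈ G, g x = y)
    (hpg : ∀ g ∈ G, ∃ k : ℕ, g ^ p ^ k = 1)
    (hcut : BoundedCut p G ∨ CentRet G) :
    ∃ H : Subgroup (Perm Ω), H < G ∧ ∃ x : Ω, {y : Ω | ∃ h ∈ H, h x = y}.Infinite := by
  by_contra hcon
  push Not at hcon
  have h : Pool.Agent.Lib.MP_04dca5_al.Cut.Hyp p G :=
    ⟨inferInstance, hp, hfin, htr, hpg, fun H hH hne x => hcon H (lt_of_le_of_ne hH hne) x⟩
  have hgood : ∀ r : Setoid Ω, FinCong G r ↔ Pool.Agent.Lib.MP_04dca5_al.Cut.Good G r :=
    fun r => ⟨fun h => ⟨h.1, h.2⟩, fun h => ⟨h.inv, h.fc⟩⟩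
  rcases hcut with ⟨e, hA⟩ | ⟨M, hM, hC⟩
  · refine Pool.Agent.Lib.MP_04dca5_al.Cut.mainA h e (fun r hr => ?_)
    obtain ⟨s, hs, hrs, hcut⟩ := hA r ((hgood r).2 hr)
    exact ⟨s, (hgood s).1 hs, hrs, hcut⟩
  · refine Pool.Agent.Lib.MP_04dca5_al.Cut.mainC h M (fun u hu => hM u ((hgood u).2 hu))
      (fun r hr => ?_)
    obtain ⟨s, u, hs, hu, hrs, hc⟩ := hC r ((hgood r).2 hr)
    exact ⟨s, u, (hgood s).1 hs, (hgood u).1 hu, hrs, hc⟩

end Pool.Agent.Results.MP_04dca5_al.ReturnCentralisers
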