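import Mathlib
import Pool.Agent.Lib.MP_04dca5_al.Tr.All

/-!
# MP_04dca5_al: transfers in finitary permutation groups

`G` is a transitive group of finitary permutations, all of `p`-power order, of an infinite set `Ω`
(finitary barely transitive groups are `p`-groups, one of the facts listed in the problem).

Let `r ≤ s` be `G`-invariant equivalence relations with finite classes, `B ⊆ C` the classes of a point
`o`, `A` the finite group of permutations of `B` which the stabiliser of `B` induces on `B`.  The
`r`-classes inside `C` are translates `t B`, `t ∈ T`.  If `g ∈ G` fixes all of them (as sets), its image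
under the transfer map from the stabiliser of `C` to the abelian group `A / [A, A]` is the product of
the restrictions of the elements `t⁻¹ g t` to `B`.  `TransferNonzero` says that for some such `g` this
product is not in the Frattini subgroup of `A`: for some homomorphism `φ : A → ℤ / p` the sum of
the `φ (t⁻¹ g t)` is not `0`.  This is a condition on the finite groups which the stabilisers of the
finite blocks `C` induce on `C`: only the action of `g` on `C` matters.

Theorem: if for one `B` this holds for arbitrarily large finite blocks `C`, then `G` has a proper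
subgroup with an infinite orbit (the negated form of Q1).

Equivalently: in a finitary barely transitive group, for every finite block `B` and all sufficiently
large finite blocks `C` which contain `B`, the transfer to `A / Φ (A)` kills all elements which fix all
translates of `B` inside `C`.  For instance, all elements of `G` which are supported in `B` act on `B`
as elements of the Frattini subgroup of `A`.
-/

set_option autoImplicit false

namespace Pool.Agent.Results.MP_04dca5_al.TransferKernels

open Equiv

/-- `r` is a `G`-invariant equivalence relation on `Ω` with finite classes. -/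
def FinCong {Ω : Type} (G : Subgroup (Perm Ω)) (r : Setoid Ω) : Prop :=
  (∀ g ∈ G, ∀ x y, r x y → r (g x) (g y)) ∧ ∀ x, {y | r x y}.Finite

/-- `φ` is a homomorphism to `ℤ / p` of the group of permutations induced on the `r`-class `B` of `o`:
a homomorphism of the stabiliser in `G` of `B`, trivial on the elements which fix all points of `B`. -/
def IsHomOnBlock {Ω : Type} (p : ℕ) (G : Subgroup (Perm Ω)) (r : Setoid Ω) (o : Ω)
    (φ : Perm Ω → ZMod p) : Prop :=
  (∀ g ∈ G, ∀ h ∈ G, r o (g o) → r o (h o) → φ (g * h) = φ g + φ h) ∧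
    ∀ g ∈ G, (∀ y, r o y → g y = y) → φ g = 0

/-- `T` is a transversal: the classes `t B`, `t ∈ T`, where `B` is the `r`-class of `o`, are the
different `r`-classes inside the `s`-class of `o`. -/
def IsTransversal {Ω : Type} (G : Subgroup (Perm Ω)) (r s : Setoid Ω) (o : Ω)
    (T : Finset (Perm Ω)) : Prop :=
  (∀ t ∈ T, t ∈ G ∧ s o (t o)) ∧ (∀ t ∈ T, ∀ t' ∈ T, r (t o) (t' o) → t = t') ∧
    ∀ y, s o y → ∃ t ∈ T, r y (t o)

/-- The transfer from the `s`-class `C` of `o` to the `r`-class of `o`, modulo the Frattini subgroup, is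
not zero on the elements of `G` which fix every `r`-class inside `C`. -/
def TransferNonzero {Ω : Type} (p : ℕ) (G : Subgroup (Perm Ω)) (r s : Setoid Ω) (o : Ω) : Prop :=
  ∃ φ : Perm Ω → ZMod p, IsHomOnBlock p G r o φ ∧
    ∃ g ∈ G, (∀ y, s o y → r y (g y)) ∧
      ∃ T : Finset (Perm Ω), IsTransversal G r s o T ∧ ∑ t ∈ T, φ (t⁻¹ * g * t) ≠ 0

/-- A transitive finitary `p`-group on an infinite set in which the transfer to one finite block is
not zero on kernels for arbitrarily large finite blocks has a proper subgroup with an infinite orbit. -/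
theorem result {Ω : Type} [Infinite Ω] (p : ℕ) (hp : p.Prime) (G : Subgroup (Perm Ω))
    (hfin : ∀ g ∈ G, {x : Ω | g x ≠ x}.Finite)
    (htr : ∀ x y : Ω, ∃ g ∈ G, g x = y)
    (hpg : ∀ g ∈ G, ∃ k : ℕ, g ^ p ^ k = 1)
    (htransfer : ∃ (r : Setoid Ω) (o : Ω), FinCong G r ∧ ∀ u : Setoid Ω, FinCong G u →
      ∃ s : Setoid Ω, FinCong G s ∧ r ≤ s ∧ u ≤ s ∧ TransferNonzero p G r s o) :
    ∃ H : Subgroup (Perm Ω), H < G ∧ ∃ x : Ω, {y : Ω | ∃ h ∈ H, h x = y}.Infinite := by
  by_contra hcon
  push Not at hcon
  have h : Pool.Agent.Lib.MP_04dca5_al.Cut.Hyp p G :=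
    ⟨inferInstance, hp, hfin, htr, hpg, fun H hH hne x => hcon H (lt_of_le_of_ne hH hne) x⟩
  have hgood : ∀ r : Setoid Ω, FinCong G r ↔ Pool.Agent.Lib.MP_04dca5_al.Cut.Good G r :=
    fun r => ⟨fun h => ⟨h.1, h.2⟩, fun h => ⟨h.inv, h.fc⟩⟩
  obtain ⟨r, o, hr, hu⟩ := htransfer
  obtain ⟨u, hu1, hu2⟩ := Pool.Agent.Lib.MP_04dca5_al.Tr.mainAll h ((hgood r).1 hr) o
  obtain ⟨s, hs, hrs, hus, φ, hφ, g, hg, hgs, T, ⟨hT1, hT2, hT3⟩, hsum⟩ := hu u ((hgood u).2 hu1)
  exact hsum (hu2 s ((hgood s).1 hs) hrs hus φ ⟨hφ.1, hφ.2⟩ g hg hgs T hT1 hT2 hT3)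

end Pool.Agent.Results.MP_04dca5_al.TransferKernels
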